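import Pool.Agent.Helper6.NX.GoalsA

/-!
# NX, packet M1B: entropies of the quotient variables
-/

set_option linter.unusedVariables false

namespace Pool.Agent.Helper97.NX

open Pool.Agent.Helper6.NX

section basic

variable {Ω Ω' α β γ δ : Type} [Fintype Ω] [Fintype Ω']

lemma law_prd (P : Ω → ℝ) (Q : Ω' → ℝ) (f : Ω → α) (g : Ω' → β) :
    law (prd P Q) (fun z => (f z.1, g z.2)) = prd (law P f) (law Q g) := by
  classical
  funext c
  obtain ⟨a, b⟩ := c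
  unfold law prd
  simp only
  rw [Finset.sum_mul_sum, Fintype.sum_prod_type]
  refine Finset.sum_congr rfl fun x _ => Finset.sum_congr rfl fun y _ => ?_
  by_cases h1 : f x = a
  · by_cases h2 : g y = b
    · simp [h1, h2]
    · simp [h1, h2]
  · simp [h1]

lemma law_fst (P : Ω → ℝ) (Q : Ω' → ℝ) (hQ : IsLaw Q) (f : Ω → α) :
    law (prd P Q) (fun z => f z.1) = law P f := by
  classical
  funext a
  unfold law prd
  rw [Fintype.sum_prod_type]
  refine Finset.sum_congr rfl fun x _ => ?_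
  by_cases h : f x = a
  · simp only [h, if_true]
    rw [← Finset.mul_sum, hQ.2, mul_one]
  · simp [h]

lemma law_snd (P : Ω → ℝ) (Q : Ω' → ℝ) (hP : IsLaw P) (f : Ω' → α) :
    law (prd P Q) (fun z => f z.2) = law Q f := by
  classical
  funext a
  unfold law prd
  rw [Fintype.sum_prod_type_right]
  refine Finset.sum_congr rfl fun x _ => ?_
  by_cases h : f x = a
  · simp only [h, if_true]
    rw [← Finset.sum_mul, hP.2, one_mul]
  · simp [h]

lemma isLaw_prd (P : Ω → ℝ) (Q : Ω' → ℝ) (hP : IsLaw P) (hQ : IsLaw Q) : IsLaw (prd P Q) := by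
  refine ⟨fun z => mul_nonneg (hP.1 _) (hQ.1 _), ?_⟩
  unfold prd
  rw [Fintype.sum_prod_type]
  simp only
  calc ∑ x, ∑ y, P x * Q y = ∑ x, P x * ∑ y, Q y := by
        refine Finset.sum_congr rfl fun x _ => ?_
        rw [Finset.mul_sum]
    _ = 1 := by rw [hQ.2]; simp only [mul_one]; exact hP.2

lemma ent_unit (P : Ω → ℝ) (hP : IsLaw P) : ent P (fun _ => ()) = 0 := by
  classical
  unfold ent
  have h1 : law P (fun _ : Ω => ()) () = 1 := by
    unfold law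
    simp only [if_true]
    exact hP.2
  rw [neg_eq_zero]
  refine Finset.sum_eq_zero fun ω _ => ?_
  rw [h1, Real.log_one, mul_zero]

/-- subadditivity -/
lemma ent_pair (hl2 : S_L2) (hl4 : S_L4) (P : Ω → ℝ) (hP : IsLaw P) (X : Ω → α) (Y : Ω → β) :
    ent P (fun ω => (X ω, Y ω)) ≤ ent P X + ent P Y := by
  have h1 := (hl4 Ω α β Unit P X Y (fun _ => ()) hP).2
  rw [ent_unit P hP, add_zero] at h1
  have h2 : ent P (fun ω => (X ω, Y ω)) ≤ ent P (fun ω => (X ω, Y ω, ())) := by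
    refine hl2 _ _ _ P _ _ hP fun ω ω' _ _ h => ?_
    simp only [Prod.mk.injEq] at h ⊢
    exact ⟨h.1, h.2.1⟩
  have h3 : ent P (fun ω => (X ω, ())) ≤ ent P X := by
    refine hl2 _ _ _ P _ _ hP fun ω ω' _ _ h => ?_
    rw [h]
  have h4 : ent P (fun ω => (Y ω, ())) ≤ ent P Y := by
    refine hl2 _ _ _ P _ _ hP fun ω ω' _ _ h => ?_
    rw [h]
  linarith

/-- submodularity for variables which both determine `Z` -/
lemma ent_submod (hl2 : S_L2) (hl4 : S_L4) (P : Ω → ℝ) (hP : IsLaw P) (X : Ω → α) (Y : Ω → β)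
    (Z : Ω → γ) (W : Ω → δ)
    (hX : ∀ ω ω', 0 < P ω → 0 < P ω' → X ω = X ω' → Z ω = Z ω')
    (hY : ∀ ω ω', 0 < P ω → 0 < P ω' → Y ω = Y ω' → Z ω = Z ω')
    (hW : ∀ ω ω', 0 < P ω → 0 < P ω' → X ω = X ω' → Y ω = Y ω' → W ω = W ω') :
    ent P W + ent P Z ≤ ent P X + ent P Y := by
  have h1 := (hl4 Ω α β γ P X Y Z hP).2
  have h2 : ent P W ≤ ent P (fun ω => (X ω, Y ω, Z ω)) := by
    refine hl2 _ _ _ P _ _ hP fun ω ω' a b h => ?_
    simp only [Prod.mk.injEq] at h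
    exact hW ω ω' a b h.1 h.2.1
  have h3 : ent P (fun ω => (X ω, Z ω)) ≤ ent P X := by
    refine hl2 _ _ _ P _ _ hP fun ω ω' a b h => ?_
    rw [h, hX ω ω' a b h]
  have h4 : ent P (fun ω => (Y ω, Z ω)) ≤ ent P Y := by
    refine hl2 _ _ _ P _ _ hP fun ω ω' a b h => ?_
    rw [h, hY ω ω' a b h]
  linarith

lemma law_law (hl5 : S_L5) (P : Ω → ℝ) (f : Ω → Ω') (X : Ω' → α) (hP : IsLaw P) :
    law (law P f) X = law P (fun ω => X (f ω)) := by
  funext a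
  exact (hl5 Ω Ω' α P f X hP).2.1 a

lemma ent_law (hl5 : S_L5) (P : Ω → ℝ) (f : Ω → Ω') (X : Ω' → α) (hP : IsLaw P) :
    ent (law P f) X = ent P (fun ω => X (f ω)) := (hl5 Ω Ω' α P f X hP).2.2.1

lemma isLaw_law (hl5 : S_L5) (P : Ω → ℝ) (f : Ω → Ω') (hP : IsLaw P) :
    IsLaw (law P f) := (hl5 Ω Ω' Ω' P f (fun x => x) hP).1

/-- the entropy depends only on the law -/
lemma ent_congr_law (P : Ω → ℝ) (Q : Ω' → ℝ) (X : Ω → α) (Y : Ω' → α) [Fintype α]
    (hl5 : S_L5) (hP : IsLaw P) (hQ : IsLaw Q) (h : law P X = law Q Y) : ent P X = ent Q Y := by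
  have h1 := ent_law hl5 P X (fun a => a) hP
  have h2 := ent_law hl5 Q Y (fun a => a) hQ
  rw [← h1, ← h2, h]

lemma ent_prd_fst (hl7 : S_L7) (P : Ω → ℝ) (Q : Ω' → ℝ) (hP : IsLaw P) (hQ : IsLaw Q)
    (X : Ω → α) : ent (prd P Q) (fun z => X z.1) = ent P X :=
  ((hl7 Ω Ω' Unit Unit α P (fun _ => Q) (fun _ _ => ()) (fun _ _ => ()) X hP
    (fun _ => hQ)).2.2.2.2 Q (fun _ => ()) hQ).2.2.1

lemma ent_prd_snd (hl7 : S_L7) (P : Ω → ℝ) (Q : Ω' → ℝ) (hP : IsLaw P) (hQ : IsLaw Q)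
    (X : Ω' → α) : ent (prd P Q) (fun z => X z.2) = ent Q X :=
  ((hl7 Ω Ω' α Unit Unit P (fun _ => Q) (fun _ _ => X (Classical.choice
    (by
      by_contra h
      rw [not_nonempty_iff] at h
      have := hQ.2
      rw [Finset.univ_eq_empty, Finset.sum_empty] at this
      exact zero_ne_one this))) (fun _ _ => ()) (fun _ => ()) hP
    (fun _ => hQ)).2.2.2.2 Q X hQ).2.2.2

lemma ent_prd_pair (hl7 : S_L7) (P : Ω → ℝ) (Q : Ω' → ℝ) (hP : IsLaw P) (hQ : IsLaw Q)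
    (X : Ω → α) (Y : Ω' → β) :
    ent (prd P Q) (fun z => (X z.1, Y z.2)) = ent P X + ent Q Y := by
  have hne : Nonempty Ω' := by
    by_contra h
    rw [not_nonempty_iff] at h
    have := hQ.2
    rw [Finset.univ_eq_empty, Finset.sum_empty] at this
    exact zero_ne_one this
  exact ((hl7 Ω Ω' β Unit α P (fun _ => Q) (fun _ _ => Y (Classical.choice hne))
    (fun _ _ => ()) X hP (fun _ => hQ)).2.2.2.2 Q Y hQ).2.1

end basic

theorem thmM1B (hl2 : S_L2) (hl4 : S_L4) (hl5 : S_L5) (hl7 : S_L7) (hl8 : S_L8) : S_M1B := by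
  classical
  intro G _ _ μ Hc hμ hHc
  set Y : G × G → G := fun a => a.2 * a.1⁻¹ with hY
  set P2 : G × G → ℝ := prd μ μ with hP2
  have hP2l : IsLaw P2 := isLaw_prd μ μ hμ hμ
  set S : ℝ := H μ with hS
  -- the entropy of the quotient
  have e1 : ent P2 (fun a => (a.1, Y a)) = 2 * S := by
    have h1 : ent P2 (fun a => (a.1, a.2)) = 2 * S := by
      rw [hP2, ent_prd_pair hl7 μ μ hμ hμ (fun g => g) (fun g => g), hS]
      unfold H
      ring
    rw [← h1]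
    refine le_antisymm ?_ ?_
    · refine hl2 _ _ _ P2 _ _ hP2l fun a b _ _ h => ?_
      simp only [Prod.mk.injEq] at h ⊢
      rw [hY]
      simp only [h.1, h.2, and_self]
    · refine hl2 _ _ _ P2 _ _ hP2l fun a b _ _ h => ?_
      simp only [Prod.mk.injEq, hY] at h ⊢
      obtain ⟨h1, h2⟩ := h
      refine ⟨h1, ?_⟩
      rw [h1] at h2
      exact mul_right_cancel h2
  have e2 : ent P2 Y = 2 * S - Hc := by
    have : Hc = ent P2 (fun a => (a.1, Y a)) - ent P2 Y := hHc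
    linarith
  -- the quadruple
  obtain ⟨q1, q2, q3, -, q5, q6⟩ := hl8 (G × G) G G G P2 (fun a => a.1) (fun a => a.1) Y hP2l
  set Q : (G × G) × (G × G) → ℝ := quad μ with hQ
  have hQ' : ccp P2 Y = Q := rfl
  rw [hQ'] at q1 q2 q3 q6
  have q5' : ∀ z, 0 < Q z → Y z.1 = Y z.2 := q5
  have e3 : ent Q (fun z => Y z.1) = 2 * S - Hc := by
    rw [← e2, ← q2, ent_law hl5 Q Prod.fst Y q1]
  have e4 : ent Q (fun z => ((z.1.1, z.2.1), Y z.1)) = 2 * S + Hc := by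
    have h1 : cent Q (fun z => (z.1.1, z.2.1)) (fun z => Y z.1) = Hc + Hc := by
      rw [q6, hHc]
    unfold cent at h1
    linarith
  have e5 : ent Q (fun z => z.1.2) = S := by
    rw [← ent_law hl5 Q Prod.fst (fun a => a.2) q1, q2, hP2,
      ent_prd_snd hl7 μ μ hμ hμ (fun g => g)]
    rfl
  have e6 : ent Q (fun z => z.2.2) = S := by
    rw [← ent_law hl5 Q Prod.snd (fun a => a.2) q1, q3, hP2,
      ent_prd_snd hl7 μ μ hμ hμ (fun g => g)]
    rfl
  have e5' : ent Q (fun z => z.1.1) = S := by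
    rw [← ent_law hl5 Q Prod.fst (fun a => a.1) q1, q2, hP2,
      ent_prd_fst hl7 μ μ hμ hμ (fun g => g)]
    rfl
  have e6' : ent Q (fun z => z.2.1) = S := by
    rw [← ent_law hl5 Q Prod.snd (fun a => a.1) q1, q3, hP2,
      ent_prd_fst hl7 μ μ hμ hμ (fun g => g)]
    rfl
  have e7 : ent Q (fun z => (z.1.2, z.2.2)) ≤ 2 * S := by
    have := ent_pair hl2 hl4 Q q1 (fun z => z.1.2) (fun z => z.2.2)
    linarith
  have e8 : ent Q (fun z => (z.1.1, z.2.1)) ≤ 2 * S := by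
    have := ent_pair hl2 hl4 Q q1 (fun z => z.1.1) (fun z => z.2.1)
    linarith
  -- `h` is also `a₁⁻¹ a₁'`
  have hh : ∀ z, 0 < Q z → z.1.1⁻¹ * z.2.1 = z.1.2⁻¹ * z.2.2 := by
    intro z hz
    have h1 := q5' z hz
    simp only [hY] at h1
    have h2 : z.2.2 = z.1.2 * z.1.1⁻¹ * z.2.1 := by
      rw [h1]
      group
    rw [h2]
    group
  have e9 : (2 * S + Hc) + ent Q (fun z => z.1.1⁻¹ * z.2.1) ≤
      ent Q (fun z => (z.1.1, z.2.1)) + ent Q (fun z => (z.1.2, z.2.2)) := by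
    rw [← e4]
    refine ent_submod hl2 hl4 Q q1 _ _ _ _ ?_ ?_ ?_
    · intro z z' _ _ h
      simp only [Prod.mk.injEq] at h
      rw [h.1, h.2]
    · intro z z' hz hz' h
      simp only [Prod.mk.injEq] at h
      rw [hh z hz, hh z' hz', h.1, h.2]
    · intro z z' _ _ h h'
      simp only [Prod.mk.injEq] at h h'
      simp only [hY]
      rw [h.1, h.2, h'.1]
  have hHν : H (hlaw μ) = ent Q (fun z => z.1.1⁻¹ * z.2.1) := by
    unfold H hlaw
    rw [ent_law hl5 (quad μ) _ (fun g => g) q1]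
  refine ⟨by rw [hHν]; linarith, ?_⟩
  -- the pair law
  set π : G × G → ℝ := law Q (fun z => (z.1.1, z.2.1)) with hπ
  have hπl : IsLaw π := isLaw_law hl5 Q _ q1
  have p1 : law π (fun p => p.1) = μ := by
    rw [hπ, law_law hl5 Q _ _ q1]
    have h1 : law (law Q Prod.fst) (fun a => a.1) = μ := by
      rw [q2, hP2, law_fst μ μ hμ (fun g => g)]
      funext g
      unfold law
      simp
    rw [law_law hl5 Q Prod.fst (fun a => a.1) q1] at h1
    exact h1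
  have p2 : law π (fun p => p.2) = μ := by
    rw [hπ, law_law hl5 Q _ _ q1]
    have h1 : law (law Q Prod.snd) (fun a => a.1) = μ := by
      rw [q3, hP2, law_fst μ μ hμ (fun g => g)]
      funext g
      unfold law
      simp
    rw [law_law hl5 Q Prod.snd (fun a => a.1) q1] at h1
    exact h1
  have p3 : law π (fun p => p.1⁻¹ * p.2) = hlaw μ := by
    rw [hπ, law_law hl5 Q _ _ q1]
    rfl
  have p4 : ent π (fun p => p) = ent Q (fun z => (z.1.1, z.2.1)) := by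
    rw [hπ, ent_law hl5 Q _ _ q1]
  have p5 : ent π (fun p => p.1) = S := by
    rw [hπ, ent_law hl5 Q _ _ q1, e5']
  have p6 : ent π (fun p => p.2) = S := by
    rw [hπ, ent_law hl5 Q _ _ q1, e6']
  have p7 : ent π (fun p => p.1⁻¹ * p.2) = ent Q (fun z => z.1.1⁻¹ * z.2.1) := by
    rw [hπ, ent_law hl5 Q _ _ q1]
  -- the triple
  set T2 : (G × G) × (G × G) → ℝ := prd π π with hT2
  have hT2l : IsLaw T2 := isLaw_prd π π hπl hπl
  set T : ((G × G) × (G × G)) × (G × G) → ℝ := prd T2 π with hT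
  have hTl : IsLaw T := isLaw_prd T2 π hT2l hπl
  have t1 : law T2 (fun y => (y.1.1⁻¹ * y.1.2) * (y.2.1⁻¹ * y.2.2)) =
      conv (hlaw μ) (hlaw μ) := by
    unfold conv
    rw [← p3, ← law_prd π π (fun p => p.1⁻¹ * p.2) (fun p => p.1⁻¹ * p.2),
      law_law hl5 _ _ _ hT2l]
  have t2 : law T (fun z => ((z.1.1.1⁻¹ * z.1.1.2) * (z.1.2.1⁻¹ * z.1.2.2)) *
      (z.2.1⁻¹ * z.2.2)) = conv (conv (hlaw μ) (hlaw μ)) (hlaw μ) := by
    rw [← t1]
    unfold conv
    rw [← p3, ← law_prd T2 π (fun y => (y.1.1⁻¹ * y.1.2) * (y.2.1⁻¹ * y.2.2))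
      (fun p => p.1⁻¹ * p.2), law_law hl5 _ _ _ hTl]
  have t3 : H (conv (conv (hlaw μ) (hlaw μ)) (hlaw μ)) =
      ent T (fun z => ((z.1.1.1⁻¹ * z.1.1.2) * (z.1.2.1⁻¹ * z.1.2.2)) * (z.2.1⁻¹ * z.2.2)) := by
    rw [← t2]
    unfold H
    rw [ent_law hl5 T _ (fun g => g) hTl]
  -- the entropy of the products `b' b⁻¹`
  have g0 : ent P2 (fun a => a.1 * a.2⁻¹) = 2 * S - Hc := by
    rw [← e2]
    refine ent_congr_law P2 P2 _ _ hl5 hP2l hP2l ?_
    funext g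
    unfold law
    rw [hP2]
    unfold prd
    rw [Fintype.sum_prod_type, Fintype.sum_prod_type_right]
    refine Finset.sum_congr rfl fun x _ => Finset.sum_congr rfl fun y _ => ?_
    simp only [hY]
    rw [mul_comm (μ x) (μ y)]
  have g1 : ent T (fun z => z.1.1.2 * z.1.2.1⁻¹) = 2 * S - Hc := by
    rw [hT, ent_prd_fst hl7 T2 π hT2l hπl (fun y => y.1.2 * y.2.1⁻¹), ← g0]
    have h1 : law T2 (fun y => (y.1.2, y.2.1)) = P2 := by
      rw [hT2, law_prd π π (fun p => p.2) (fun p => p.1), p1, p2]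
    rw [← h1, ent_law hl5 T2 _ _ hT2l]
  have g2 : ent T (fun z => z.1.2.2 * z.2.1⁻¹) = 2 * S - Hc := by
    rw [← g0]
    have h1 : law T (fun z => (z.1.2.2, z.2.1)) = P2 := by
      rw [hT, law_prd T2 π (fun y => y.2.2) (fun p => p.1), p1, hT2,
        law_snd π π hπl (fun p => p.2), p2]
    rw [← h1, ent_law hl5 T _ _ hTl]
  have b1 : ent T (fun z => z.1.1.1) = S := by
    rw [hT, ent_prd_fst hl7 T2 π hT2l hπl (fun y => y.1.1), hT2,
      ent_prd_fst hl7 π π hπl hπl (fun p => p.1), p5]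
  have b3 : ent T (fun z => z.2.2) = S := by
    rw [hT, ent_prd_snd hl7 T2 π hT2l hπl (fun p => p.2), p6]
  -- the two variables
  have a1 : ent T (fun z => ((z.1.1.1, z.1.1.2 * z.1.2.1⁻¹), (z.1.2.2 * z.2.1⁻¹, z.2.2))) ≤
      6 * S - 2 * Hc := by
    have h1 := ent_pair hl2 hl4 T hTl (fun z => (z.1.1.1, z.1.1.2 * z.1.2.1⁻¹))
      (fun z => (z.1.2.2 * z.2.1⁻¹, z.2.2))
    have h2 := ent_pair hl2 hl4 T hTl (fun z => z.1.1.1) (fun z => z.1.1.2 * z.1.2.1⁻¹)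
    have h3 := ent_pair hl2 hl4 T hTl (fun z => z.1.2.2 * z.2.1⁻¹) (fun z => z.2.2)
    linarith
  have a2 : ent T (fun z => ((z.1.1.1⁻¹ * z.1.1.2, z.1.2.1⁻¹ * z.1.2.2), z.2.1⁻¹ * z.2.2)) =
      3 * ent Q (fun z => z.1.1⁻¹ * z.2.1) := by
    rw [hT, ent_prd_pair hl7 T2 π hT2l hπl
      (fun y => (y.1.1⁻¹ * y.1.2, y.2.1⁻¹ * y.2.2)) (fun p => p.1⁻¹ * p.2), hT2,
      ent_prd_pair hl7 π π hπl hπl (fun p => p.1⁻¹ * p.2) (fun p => p.1⁻¹ * p.2), p7]
    ring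
  have a3 : ent T (fun z => ((z.1.1, z.1.2), z.2)) =
      3 * ent Q (fun z => (z.1.1, z.2.1)) := by
    rw [hT, ent_prd_pair hl7 T2 π hT2l hπl (fun y => (y.1, y.2)) (fun p => p), hT2,
      ent_prd_pair hl7 π π hπl hπl (fun p => p) (fun p => p), p4]
    ring
  have a4 : ent T (fun z => ((z.1.1, z.1.2), z.2)) +
      ent T (fun z => ((z.1.1.1⁻¹ * z.1.1.2) * (z.1.2.1⁻¹ * z.1.2.2)) * (z.2.1⁻¹ * z.2.2)) ≤
      ent T (fun z => ((z.1.1.1, z.1.1.2 * z.1.2.1⁻¹), (z.1.2.2 * z.2.1⁻¹, z.2.2))) +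
      ent T (fun z => ((z.1.1.1⁻¹ * z.1.1.2, z.1.2.1⁻¹ * z.1.2.2), z.2.1⁻¹ * z.2.2)) := by
    refine ent_submod hl2 hl4 T hTl _ _ _ _ ?_ ?_ ?_
    · intro z z' _ _ h
      simp only [Prod.mk.injEq] at h
      obtain ⟨⟨h1, h2⟩, h3, h4⟩ := h
      have key : ∀ w : ((G × G) × (G × G)) × (G × G),
          ((w.1.1.1⁻¹ * w.1.1.2) * (w.1.2.1⁻¹ * w.1.2.2)) * (w.2.1⁻¹ * w.2.2) =
          w.1.1.1⁻¹ * (w.1.1.2 * w.1.2.1⁻¹) * (w.1.2.2 * w.2.1⁻¹) * w.2.2 := by
        intro w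
        group
      rw [key z, key z', h1, h2, h3, h4]
    · intro z z' _ _ h
      simp only [Prod.mk.injEq] at h
      obtain ⟨⟨h1, h2⟩, h3⟩ := h
      rw [h1, h2, h3]
    · intro z z' _ _ h h'
      simp only [Prod.mk.injEq] at h h'
      obtain ⟨⟨h1, h2⟩, h3, h4⟩ := h
      obtain ⟨⟨k1, k2⟩, k3⟩ := h'
      have r1 : z.1.1.2 = z'.1.1.2 := by
        rw [h1] at k1
        exact mul_left_cancel k1
      have r2 : z.1.2.1 = z'.1.2.1 := by
        rw [r1] at h2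
        exact inv_injective (mul_left_cancel h2)
      have r3 : z.1.2.2 = z'.1.2.2 := by
        rw [r2] at k2
        exact mul_left_cancel k2
      have r4 : z.2.1 = z'.2.1 := by
        rw [r3] at h3
        exact inv_injective (mul_left_cancel h3)
      simp only [Prod.mk.injEq]
      refine ⟨⟨Prod.ext h1 r1, Prod.ext r2 r3⟩, Prod.ext r4 h4⟩
  rw [t3]
  rw [a3, a2] at a4
  linarith

end Pool.Agent.Helper97.NX
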